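import Mathlib

set_option autoImplicit false

namespace Pool.Agent.Results.MP_ce9a4f_an.NoBoundState

open scoped ContDiff Topology ENNReal
open MeasureTheory Set

/-! ### Definitions -/

/-- The tangential variables. -/
abbrev E := Fin 3 → ℝ

/-- The locally deformed half-space `Ω = {(x, y) ∈ ℝ³ × ℝ : y > φ(x)}`. -/
def Omega (φ : E → ℝ) : Set (E × ℝ) := {p | φ p.1 < p.2}

/-- Lebesgue measure on `Ω`. -/
noncomputable def vol (φ : E → ℝ) : Measure (E × ℝ) := volume.restrict (Omega φ)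

/-- The square of the length of the gradient of `φ`. -/
noncomputable def slope (φ : E → ℝ) (x : E) : ℝ :=
  ∑ i, fderiv ℝ φ x (Pi.single i 1) ^ 2

/-- Surface measure of the graph `∂Ω = {(x, φ(x))}`, in the coordinate `x`:
`dσ = √(1 + |∇φ(x)|²) dx`. -/
noncomputable def surf (φ : E → ℝ) : Measure E :=
  volume.withDensity fun x => ENNReal.ofReal (Real.sqrt (1 + slope φ x))

/-- The four coordinate directions of `ℝ³ × ℝ`. -/
def dir : Fin 4 → E × ℝ := ![(Pi.single 0 1, 0), (Pi.single 1 1, 0), (Pi.single 2 1, 0), (0, 1)]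

/-- The partial derivative of `u` in the `i`-th coordinate direction. -/
noncomputable def pd (i : Fin 4) (u : E × ℝ → ℂ) (p : E × ℝ) : ℂ := fderiv ℝ u p (dir i)

/-- `f ∈ H¹(Ω)`, with weak gradient `G` and boundary trace `g`: there are `uₙ ∈ C_c^∞(ℝ⁴)` with
`uₙ → f` and `∂ᵢ uₙ → Gᵢ` in `L²(Ω)` and `uₙ|_∂Ω → g` in `L²(∂Ω)`. -/
def InH1 (φ : E → ℝ) (f : E × ℝ → ℂ) (G : Fin 4 → E × ℝ → ℂ) (g : E → ℂ) : Prop :=
  MemLp f 2 (vol φ) ∧ (∀ i, MemLp (G i) 2 (vol φ)) ∧ MemLp g 2 (surf φ) ∧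
  ∃ u : ℕ → E × ℝ → ℂ, (∀ n, ContDiff ℝ ∞ (u n) ∧ HasCompactSupport (u n)) ∧
    Filter.Tendsto (fun n => eLpNorm (fun p => u n p - f p) 2 (vol φ)) Filter.atTop (𝓝 0) ∧
    (∀ i, Filter.Tendsto (fun n => eLpNorm (fun p => pd i (u n) p - G i p) 2 (vol φ))
      Filter.atTop (𝓝 0)) ∧
    Filter.Tendsto (fun n => eLpNorm (fun x => u n (x, φ x) - g x) 2 (surf φ)) Filter.atTop (𝓝 0)

/-- The sesquilinear form of the Robin Laplacian with `α = -1`:
`∫_Ω ∇v̄ · ∇w dx - ∫_{∂Ω} v̄ w dσ`, in terms of the gradients `K`, `G` and the traces `k`, `g`. -/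
noncomputable def q (φ : E → ℝ) (K G : Fin 4 → E × ℝ → ℂ) (k g : E → ℂ) : ℂ :=
  ∑ i, (∫ p, (starRingEnd ℂ) (K i p) * G i p ∂(vol φ)) - ∫ x, (starRingEnd ℂ) (k x) * g x ∂(surf φ)

/-- `l` is an eigenvalue of the Robin Laplacian: some `f ∈ H¹(Ω)`, not a.e. zero, satisfies
`q(v, f) = l ⟨v, f⟩` for all `v ∈ H¹(Ω)`. -/
def IsEigenvalue (φ : E → ℝ) (l : ℝ) : Prop :=
  ∃ f G g, InH1 φ f G g ∧ ¬ (f =ᵐ[vol φ] 0) ∧
    ∀ v K k, InH1 φ v K k → q φ K G k g = l * ∫ p, (starRingEnd ℂ) (v p) * f p ∂(vol φ)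

/-- `L²` triples (function, gradient, boundary trace). -/
abbrev Triple (φ : E → ℝ) :=
  Lp ℂ 2 (vol φ) × (Fin 4 → Lp ℂ 2 (vol φ)) × Lp ℂ 2 (surf φ)

/-- The triples given by restrictions to `Ω` of functions in `C_c^∞(ℝ⁴)`. -/
def Smooth (φ : E → ℝ) : Set (Triple φ) :=
  {w | ∃ u : E × ℝ → ℂ, ContDiff ℝ ∞ u ∧ HasCompactSupport u ∧ w.1 =ᵐ[vol φ] u ∧
    (∀ i, w.2.1 i =ᵐ[vol φ] pd i u) ∧ w.2.2 =ᵐ[surf φ] fun x => u (x, φ x)}

/-! ### Hardy's inequality -/

abbrev e (i : Fin 3) : E := Pi.single i 1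

abbrev pr (i : Fin 3) : E →L[ℝ] ℝ := ContinuousLinearMap.proj i

lemma int_fderiv_zero {F : Type*} [NormedAddCommGroup F] [NormedSpace ℝ F] [FiniteDimensional ℝ F]
    [MeasurableSpace F] [BorelSpace F] (μ : Measure F) [μ.IsAddHaarMeasure] (h : F → ℝ)
    (hh : ContDiff ℝ 1 h) (hc : HasCompactSupport h) (v : F) : ∫ x, fderiv ℝ h x v ∂μ = 0 := by
  have hint' : Integrable (fun x => fderiv ℝ h x v) μ :=
    ((hh.continuous_fderiv (by norm_num)).clm_apply continuous_const).integrable_of_hasCompactSupport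
      (hc.fderiv_apply ℝ v)
  have := integral_mul_fderiv_eq_neg_fderiv_mul_of_integrable (μ := μ)
    (f := fun _ => (1 : ℝ)) (g := h) (v := v) (by simp) (by simpa using hint')
    (by simpa using hh.continuous.integrable_of_hasCompactSupport hc)
    (fun _ _ => differentiableAt_const _) (fun x _ => (hh.differentiable (by norm_num)) x)
  simpa using this

/-- the weight -/
noncomputable def wt (x : E) : ℝ := (1 + ∑ i, x i ^ 2)⁻¹

lemma base_pos (x : E) : 0 < 1 + ∑ i, x i ^ 2 := by positivity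

lemma wt_pos (x : E) : 0 < wt x := inv_pos.mpr (base_pos x)

lemma contDiff_wt : ContDiff ℝ ∞ wt := by
  unfold wt
  apply ContDiff.inv
  · have : ∀ i : Fin 3, ContDiff ℝ ∞ fun x : E => x i := fun i =>
      (pr i).contDiff
    fun_prop
  · exact fun x => (base_pos x).ne'

lemma hasFDerivAt_coord (i : Fin 3) (x : E) :
    HasFDerivAt (fun x : E => x i) (pr i) x :=
  (pr i).hasFDerivAt

lemma fderiv_wt (x : E) (i : Fin 3) : fderiv ℝ wt x (e i) = -(2 * x i) * wt x ^ 2 := by
  have h1 : HasFDerivAt (fun x : E => 1 + ∑ j, x j ^ 2)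
      (∑ j, (2 * x j) • pr j) x := by
    apply HasFDerivAt.const_add
    apply HasFDerivAt.fun_sum
    intro j _
    have := (hasFDerivAt_coord j x).pow 2
    simpa using this
  have h2 := ((hasDerivAt_inv (base_pos x).ne').comp_hasFDerivAt x h1).fderiv
  have h3 : fderiv ℝ wt x = -((1 + ∑ j, x j ^ 2) ^ 2)⁻¹ •
      ∑ j, (2 * x j) • pr j := h2
  rw [h3]
  simp only [smul_apply, sum_apply, smul_eq_mul, wt]
  fin_cases i <;> simp [Fin.sum_univ_three] <;> ring

/-- Hardy's inequality in `ℝ³`, with a regularised weight. -/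
lemma hardy (f : E → ℝ) (hf : ContDiff ℝ 1 f) (hc : HasCompactSupport f) :
    (1 / 4) * ∫ x, wt x * f x ^ 2 ≤ ∫ x, ∑ i, fderiv ℝ f x (e i) ^ 2 := by
  have hwt1 : ContDiff ℝ 1 wt := contDiff_wt.of_le (by norm_num)
  -- the vector field `f² x_i / (1 + |x|²)`
  have hX : ∀ i : Fin 3, ContDiff ℝ 1 fun x : E => f x ^ 2 * (x i * wt x) := fun i =>
    (hf.pow 2).mul (((pr i).contDiff.of_le le_top).mul hwt1)
  have hXc : ∀ i : Fin 3, HasCompactSupport fun x : E => f x ^ 2 * (x i * wt x) := fun i =>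
    (hc.comp_left (g := fun y : ℝ => y ^ 2) (by simp)).mul_right
  have hint : ∀ i : Fin 3, ∫ x, fderiv ℝ (fun x : E => f x ^ 2 * (x i * wt x)) x (e i) = 0 :=
    fun i => int_fderiv_zero volume _ (hX i) (hXc i) _
  have hder : ∀ (i : Fin 3) (x : E), fderiv ℝ (fun x : E => f x ^ 2 * (x i * wt x)) x (e i) =
      2 * f x * fderiv ℝ f x (e i) * (x i * wt x) +
        f x ^ 2 * (wt x - 2 * x i ^ 2 * wt x ^ 2) := by
    intro i x
    have h1 : HasFDerivAt f (fderiv ℝ f x) x := (hf.differentiable (by norm_num) x).hasFDerivAt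
    have h2 : HasFDerivAt wt (fderiv ℝ wt x) x :=
      (hwt1.differentiable (by norm_num) x).hasFDerivAt
    have h3 := (h1.pow 2).mul ((hasFDerivAt_coord i x).mul h2)
    have h4 : fderiv ℝ (fun x : E => f x ^ 2 * (x i * wt x)) x = _ := h3.fderiv
    rw [h4]
    have h5 := fderiv_wt x i
    simp only [add_apply, smul_apply, smul_eq_mul, h5]
    have h6 : (pr i) (e i) = 1 := by simp
    rw [h6]
    simp
    ring
  -- pointwise inequality
  have hpt : ∀ x, (1 / 4) * (wt x * f x ^ 2) - ∑ i, fderiv ℝ f x (e i) ^ 2 ≤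
      (1 / 2) * ∑ i, fderiv ℝ (fun x : E => f x ^ 2 * (x i * wt x)) x (e i) := by
    intro x
    simp only [hder, Fin.sum_univ_three]
    have hw := wt_pos x
    have hwx : wt x * (1 + (x 0 ^ 2 + x 1 ^ 2 + x 2 ^ 2)) = 1 := by
      have := inv_mul_cancel₀ (base_pos x).ne'
      rw [Fin.sum_univ_three] at this
      rw [wt, Fin.sum_univ_three]
      exact this
    set a0 := fderiv ℝ f x (e 0)
    set a1 := fderiv ℝ f x (e 1)
    set a2 := fderiv ℝ f x (e 2)
    set w := wt x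
    set F := f x
    set y0 := x 0
    set y1 := x 1
    set y2 := x 2
    have s0 := sq_nonneg (a0 + (1 / 2) * F * (y0 * w))
    have s1 := sq_nonneg (a1 + (1 / 2) * F * (y1 * w))
    have s2 := sq_nonneg (a2 + (1 / 2) * F * (y2 * w))
    have hF := sq_nonneg F
    have hs : 0 ≤ y0 ^ 2 + y1 ^ 2 + y2 ^ 2 := by positivity
    -- w = w² (1 + |y|²)
    have hw2 : w = w ^ 2 * (1 + (y0 ^ 2 + y1 ^ 2 + y2 ^ 2)) := by
      calc w = w * (w * (1 + (y0 ^ 2 + y1 ^ 2 + y2 ^ 2))) := by rw [hwx, mul_one]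
        _ = _ := by ring
    have key : 0 ≤ F ^ 2 * ((1 / 2) * (3 * w - 2 * (y0 ^ 2 + y1 ^ 2 + y2 ^ 2) * w ^ 2) -
        (1 / 4) * w - (1 / 4) * (y0 ^ 2 + y1 ^ 2 + y2 ^ 2) * w ^ 2) := by
      apply mul_nonneg hF
      have : (y0 ^ 2 + y1 ^ 2 + y2 ^ 2) * w ^ 2 ≤ w := by
        nlinarith [sq_nonneg w]
      nlinarith
    nlinarith
  have hI1 : Integrable fun x => (1 / 4) * (wt x * f x ^ 2) := by
    apply Continuous.integrable_of_hasCompactSupport
    · exact continuous_const.mul (contDiff_wt.continuous.mul (hf.continuous.pow 2))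
    · exact ((hc.comp_left (g := fun y : ℝ => y ^ 2) (by simp)).mul_left).mul_left
  have hI2 : Integrable fun x => ∑ i, fderiv ℝ f x (e i) ^ 2 := by
    apply integrable_finsetSum
    intro i _
    apply Continuous.integrable_of_hasCompactSupport
    · exact ((hf.continuous_fderiv (by norm_num)).clm_apply continuous_const).pow 2
    · exact (hc.fderiv_apply ℝ (e i)).comp_left (g := fun y : ℝ => y ^ 2) (by simp)
  have hI3 : ∀ i, Integrable fun x => fderiv ℝ (fun x : E => f x ^ 2 * (x i * wt x)) x (e i) := by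
    intro i
    apply Continuous.integrable_of_hasCompactSupport
    · exact ((hX i).continuous_fderiv (by norm_num)).clm_apply continuous_const
    · exact (hXc i).fderiv_apply ℝ (e i)
  have h := integral_mono (hI1.sub hI2) ((integrable_finsetSum _ fun i _ => hI3 i).const_mul (1 / 2)) hpt
  simp only [Pi.sub_apply] at h
  rw [integral_sub hI1 hI2, integral_const_mul, integral_const_mul,
    integral_finsetSum _ fun i _ => hI3 i] at h
  simp only [hint, Finset.sum_const_zero, mul_zero] at h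
  linarith

/-! ### Flattening the boundary -/

section Flat

variable (φ : E → ℝ)

/-- the shear `(x, t) ↦ (x, φ(x) + t)` -/
def shear (p : E × ℝ) : E × ℝ := (p.1, φ p.1 + p.2)

/-- the measure on `ℝ³ × (0, ∞)` -/
noncomputable def prodm : Measure (E × ℝ) := (volume : Measure E).prod (volume.restrict (Ioi 0))

lemma mp_shear (hφ : Continuous φ) : MeasurePreserving (shear φ) (volume : Measure (E × ℝ)) volume := by
  have h1 : MeasurePreserving (fun p : E × ℝ => ((id p.1, φ p.1 + p.2) : E × ℝ))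
      ((volume : Measure E).prod (volume : Measure ℝ)) ((volume : Measure E).prod volume) := by
    apply (MeasurePreserving.id (volume : Measure E)).skew_product
      (g := fun x t => φ x + t)
    · exact ((hφ.comp continuous_fst).add continuous_snd).measurable
    · exact Filter.Eventually.of_forall fun x => map_add_left_eq_self volume (φ x)
  exact h1

lemma shear_emb (hφ : Continuous φ) : MeasurableEmbedding (shear φ) := by
  let h : (E × ℝ) ≃ₜ (E × ℝ) :=
    { toFun := shear φ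
      invFun := fun p => (p.1, p.2 - φ p.1)
      left_inv := fun p => by simp [shear]
      right_inv := fun p => by simp [shear]
      continuous_toFun := by unfold shear; fun_prop
      continuous_invFun := by fun_prop }
  exact h.measurableEmbedding

lemma flat_int (hφ : Continuous φ) (h : E × ℝ → ℝ) :
    ∫ p, h p ∂(vol φ) = ∫ p, h (shear φ p) ∂prodm := by
  have h1 := (mp_shear φ hφ).setIntegral_preimage_emb (shear_emb φ hφ) h (Omega φ)
  have h2 : shear φ ⁻¹' (Omega φ) = (univ : Set E) ×ˢ (Ioi (0 : ℝ)) := by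
    ext p
    simp [shear, Omega]
  rw [h2] at h1
  rw [vol, ← h1, prodm]
  congr 1
  have h3 : (volume : Measure (E × ℝ)) = (volume : Measure E).prod (volume : Measure ℝ) := rfl
  rw [h3, ← Measure.prod_restrict, Measure.restrict_univ]

/-- continuous functions with compact support are integrable for `prodm` -/
lemma int_prodm (h : E × ℝ → ℝ) (hc : Continuous h) (hs : HasCompactSupport h) :
    Integrable h prodm := by
  have h1 : Integrable h ((volume : Measure E).prod (volume : Measure ℝ)) :=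
    hc.integrable_of_hasCompactSupport hs
  have h2 : (prodm : Measure (E × ℝ)) =
      ((volume : Measure E).prod (volume : Measure ℝ)).restrict (univ ×ˢ (Ioi (0 : ℝ))) := by
    rw [← Measure.prod_restrict, Measure.restrict_univ]; rfl
  rw [h2]
  exact h1.restrict

/-- the fundamental theorem of calculus in the vertical direction -/
lemma vert_int (ρ : E → ℝ) (hρ : Continuous ρ) (U : E × ℝ → ℝ) (hU : ContDiff ℝ 1 U)
    (hc : HasCompactSupport U) :
    ∫ p, ρ p.1 * (2 * U p * fderiv ℝ U p (0, 1)) ∂prodm = - ∫ x, ρ x * U (x, 0) ^ 2 := by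
  have hcont : Continuous fun p : E × ℝ => ρ p.1 * (2 * U p * fderiv ℝ U p (0, 1)) :=
    (hρ.comp continuous_fst).mul ((continuous_const.mul hU.continuous).mul
      ((hU.continuous_fderiv (by norm_num)).clm_apply continuous_const))
  have hsupp : HasCompactSupport fun p : E × ℝ => ρ p.1 * (2 * U p * fderiv ℝ U p (0, 1)) :=
    (hc.mul_left.mul_right).mul_left
  rw [prodm, integral_prod _ (int_prodm _ hcont hsupp), ← integral_neg]
  congr 1
  funext x
  have h1 : ∀ t : ℝ, HasDerivAt (fun t => U (x, t) ^ 2) (2 * U (x, t) * fderiv ℝ U (x, t) (0, 1)) t := by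
    intro t
    have h2 : HasDerivAt (fun t : ℝ => ((x, t) : E × ℝ)) (0, 1) t :=
      (hasDerivAt_const t x).prodMk (hasDerivAt_id t)
    have h3 := ((hU.differentiable (by norm_num) (x, t)).hasFDerivAt).comp_hasDerivAt t h2
    have h4 : HasDerivAt (fun t => U (x, t) ^ 2) _ t := h3.pow 2
    refine h4.congr_deriv ?_
    simp
  have h5 : ContDiff ℝ 1 fun t : ℝ => U (x, t) ^ 2 := by
    have : ContDiff ℝ 1 fun t : ℝ => ((x, t) : E × ℝ) := contDiff_const.prodMk contDiff_id
    exact (hU.comp this).pow 2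
  have h6 : HasCompactSupport fun t : ℝ => U (x, t) ^ 2 := by
    have h7 : HasCompactSupport fun t : ℝ => U (x, t) := by
      apply HasCompactSupport.of_support_subset_isCompact (hc.image continuous_snd)
      intro t ht
      exact ⟨(x, t), subset_tsupport _ ht, rfl⟩
    exact h7.comp_left (g := fun y : ℝ => y ^ 2) (by simp)
  have h8 := h6.integral_Ioi_deriv_eq h5 0
  have h9 : deriv (fun t : ℝ => U (x, t) ^ 2) =
      fun t => 2 * U (x, t) * fderiv ℝ U (x, t) (0, 1) := by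
    funext t; exact (h1 t).deriv
  rw [h9] at h8
  change ∫ y in Ioi 0, ρ x * (2 * U (x, y) * (fderiv ℝ U (x, y)) (0, 1)) = _
  rw [integral_const_mul, h8]
  ring

/-- Hardy's inequality, integrated over the slices -/
lemma hardy_prod (U : E × ℝ → ℝ) (hU : ContDiff ℝ 1 U) (hc : HasCompactSupport U) :
    (1 / 4) * ∫ p, wt p.1 * U p ^ 2 ∂prodm ≤
      ∫ p, ∑ i, fderiv ℝ U p (e i, 0) ^ 2 ∂prodm := by
  have c1 : Continuous fun p : E × ℝ => wt p.1 * U p ^ 2 :=
    (contDiff_wt.continuous.comp continuous_fst).mul (hU.continuous.pow 2)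
  have s1 : HasCompactSupport fun p : E × ℝ => wt p.1 * U p ^ 2 :=
    (hc.comp_left (g := fun y : ℝ => y ^ 2) (by simp)).mul_left
  have c2 : Continuous fun p : E × ℝ => ∑ i, fderiv ℝ U p (e i, 0) ^ 2 := by
    apply continuous_finsetSum
    intro i _
    exact ((hU.continuous_fderiv (by norm_num)).clm_apply continuous_const).pow 2
  have s2 : HasCompactSupport fun p : E × ℝ => ∑ i, fderiv ℝ U p (e i, 0) ^ 2 := by
    apply HasCompactSupport.of_support_subset_isCompact hc
    intro p hp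
    by_contra hcon
    apply hp
    apply Finset.sum_eq_zero
    intro i _
    have : fderiv ℝ U p = 0 := by
      have h1 := support_fderiv_subset ℝ (f := U)
      by_contra h2
      exact hcon (h1 h2)
    rw [this]; simp
  have i1 := int_prodm _ c1 s1
  have i2 := int_prodm _ c2 s2
  rw [prodm] at i1 i2 ⊢
  rw [integral_prod_symm _ i1, integral_prod_symm _ i2, ← integral_const_mul]
  apply integral_mono
  · exact (i1.integral_prod_right).const_mul _
  · exact i2.integral_prod_right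
  · intro t
    have hd : ContDiff ℝ 1 fun x : E => U (x, t) :=
      hU.comp (contDiff_id.prodMk contDiff_const)
    have hcs : HasCompactSupport fun x : E => U (x, t) := by
      apply HasCompactSupport.of_support_subset_isCompact (hc.image continuous_fst)
      intro x hx
      exact ⟨(x, t), subset_tsupport _ hx, rfl⟩
    have h := hardy _ hd hcs
    have h2 : ∀ (x : E) (i : Fin 3), fderiv ℝ (fun x : E => U (x, t)) x (e i) =
        fderiv ℝ U (x, t) (e i, 0) := by
      intro x i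
      have h3 : HasFDerivAt (fun x : E => ((x, t) : E × ℝ)) (ContinuousLinearMap.inl ℝ E ℝ) x :=
        (hasFDerivAt_id x).prodMk (hasFDerivAt_const t x)
      have h4 := ((hU.differentiable (by norm_num) (x, t)).hasFDerivAt).comp x h3
      have h5 : fderiv ℝ (fun x : E => U (x, t)) x = _ := h4.fderiv
      rw [h5]; rfl
    simp only [h2] at h
    exact h

end Flat

/-! ### The form inequality for real smooth functions -/

section Main

variable {φ : E → ℝ}

lemma slope_nonneg (φ : E → ℝ) (x : E) : 0 ≤ slope φ x := by unfold slope; positivity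

lemma contDiff_shear (hφ : ContDiff ℝ 1 φ) : ContDiff ℝ 1 (shear φ) := by
  unfold shear
  exact contDiff_fst.prodMk ((hφ.comp contDiff_fst).add contDiff_snd)

lemma hc_shear (hφ : Continuous φ) {β : Type*} [Zero β] {h : E × ℝ → β}
    (hc : HasCompactSupport h) : HasCompactSupport (fun p => h (shear φ p)) := by
  let H : (E × ℝ) ≃ₜ (E × ℝ) :=
    { toFun := shear φ
      invFun := fun p => (p.1, p.2 - φ p.1)
      left_inv := fun p => by simp [shear]
      right_inv := fun p => by simp [shear]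
      continuous_toFun := by unfold shear; fun_prop
      continuous_invFun := by fun_prop }
  exact hc.comp_homeomorph H

/-- the pointwise inequality behind the estimate -/
lemma pointwise {a0 a1 a2 b0 b1 b2 τ U s ρ : ℝ} (hs : s = b0 ^ 2 + b1 ^ 2 + b2 ^ 2)
    (hs1 : s ≤ 1 / 28) (hρ : ρ ^ 2 = 1 + s) (hρ0 : 0 ≤ ρ) :
    (1 / 2) * (a0 ^ 2 + a1 ^ 2 + a2 ^ 2) - (7 / 2) * s * U ^ 2 ≤
      (a0 - b0 * τ) ^ 2 + (a1 - b1 * τ) ^ 2 + (a2 - b2 * τ) ^ 2 + τ ^ 2 + U ^ 2 +
        ρ * (2 * U * τ) := by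
  have hs0 : 0 ≤ s := by rw [hs]; positivity
  have hρ1 : 1 ≤ ρ := by nlinarith
  have hρ2 : ρ - 1 ≤ s / 2 := by nlinarith
  have h1 : ∀ a b : ℝ, (1 / 2) * a ^ 2 - b ^ 2 * τ ^ 2 ≤ (a - b * τ) ^ 2 := by
    intro a b
    nlinarith [sq_nonneg (a - 2 * (b * τ))]
  have e0 := h1 a0 b0
  have e1 := h1 a1 b1
  have e2 := h1 a2 b2
  have hsτ : s * τ ^ 2 = b0 ^ 2 * τ ^ 2 + b1 ^ 2 * τ ^ 2 + b2 ^ 2 * τ ^ 2 := by rw [hs]; ring
  -- with `W = τ + U`
  set W := τ + U with hW
  have hτ : τ = W - U := by rw [hW]; ring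
  have hτ2 : τ ^ 2 ≤ 2 * W ^ 2 + 2 * U ^ 2 := by
    rw [hτ]; nlinarith [sq_nonneg (W + U)]
  have h3 : s * τ ^ 2 ≤ s * (2 * W ^ 2 + 2 * U ^ 2) := mul_le_mul_of_nonneg_left hτ2 hs0
  have h4 : τ ^ 2 + U ^ 2 + ρ * (2 * U * τ) = W ^ 2 + 2 * (ρ - 1) * (U * τ) := by rw [hW]; ring
  have h5 : -(W ^ 2 + 3 * U ^ 2) ≤ 2 * (U * τ) := by
    rw [hτ]; nlinarith [sq_nonneg (W + U)]
  have h6 : -(s / 2 * (W ^ 2 + 3 * U ^ 2)) ≤ 2 * (ρ - 1) * (U * τ) := by
    have h7 : 0 ≤ ρ - 1 := by linarith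
    have h8 := mul_le_mul_of_nonneg_left h5 h7
    have h9 : (ρ - 1) * (W ^ 2 + 3 * U ^ 2) ≤ s / 2 * (W ^ 2 + 3 * U ^ 2) :=
      mul_le_mul_of_nonneg_right hρ2 (by positivity)
    nlinarith
  have h10 : (5 / 2) * s * W ^ 2 ≤ W ^ 2 := by
    have : (5 / 2) * s ≤ 1 := by linarith
    nlinarith [sq_nonneg W]
  nlinarith

/-- The form inequality for real functions. -/
lemma real_ineq (hφ : ContDiff ℝ ∞ φ) (hsl : ∀ x, slope φ x ≤ (1 / 28) * wt x)
    (u : E × ℝ → ℝ) (hu : ContDiff ℝ ∞ u) (hc : HasCompactSupport u) :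
    ∫ x, Real.sqrt (1 + slope φ x) * u (x, φ x) ^ 2 ≤
      ∫ p, (∑ i, fderiv ℝ u p (e i, 0) ^ 2 + fderiv ℝ u p (0, 1) ^ 2 + u p ^ 2) ∂(vol φ) := by
  have hφ1 : ContDiff ℝ 1 φ := hφ.of_le (by norm_num)
  have hu1 : ContDiff ℝ 1 u := hu.of_le (by norm_num)
  set U : E × ℝ → ℝ := fun p => u (shear φ p) with hUdef
  have hU : ContDiff ℝ 1 U := hu1.comp (contDiff_shear hφ1)
  have hUc : HasCompactSupport U := hc_shear hφ.continuous hc
  -- derivatives of `U`
  have hsh : ∀ p : E × ℝ, HasFDerivAt (shear φ)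
      ((ContinuousLinearMap.fst ℝ E ℝ).prod
        ((fderiv ℝ φ p.1).comp (ContinuousLinearMap.fst ℝ E ℝ) +
          ContinuousLinearMap.snd ℝ E ℝ)) p := by
    intro p
    have h1 : HasFDerivAt φ (fderiv ℝ φ p.1) p.1 :=
      (hφ1.differentiable (by norm_num) p.1).hasFDerivAt
    exact hasFDerivAt_fst.prodMk ((h1.comp p hasFDerivAt_fst).add hasFDerivAt_snd)
  have hUd : ∀ p, fderiv ℝ U p = (fderiv ℝ u (shear φ p)).comp
      ((ContinuousLinearMap.fst ℝ E ℝ).prod
        ((fderiv ℝ φ p.1).comp (ContinuousLinearMap.fst ℝ E ℝ) +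
          ContinuousLinearMap.snd ℝ E ℝ)) := by
    intro p
    have h1 : HasFDerivAt u (fderiv ℝ u (shear φ p)) (shear φ p) :=
      (hu1.differentiable (by norm_num) _).hasFDerivAt
    exact (h1.comp p (hsh p)).fderiv
  have hUt : ∀ p, fderiv ℝ U p (0, 1) = fderiv ℝ u (shear φ p) (0, 1) := by
    intro p
    rw [hUd p]
    simp
  have hUi : ∀ p i, fderiv ℝ u (shear φ p) (e i, 0) =
      fderiv ℝ U p (e i, 0) - fderiv ℝ φ p.1 (e i) * fderiv ℝ U p (0, 1) := by
    intro p i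
    rw [hUt p, hUd p]
    have h1 : ((fderiv ℝ u (shear φ p)).comp
      ((ContinuousLinearMap.fst ℝ E ℝ).prod
        ((fderiv ℝ φ p.1).comp (ContinuousLinearMap.fst ℝ E ℝ) +
          ContinuousLinearMap.snd ℝ E ℝ))) (e i, 0) =
        fderiv ℝ u (shear φ p) (e i, fderiv ℝ φ p.1 (e i)) := by simp
    rw [h1]
    have h2 : ((e i, fderiv ℝ φ p.1 (e i)) : E × ℝ) =
        (e i, 0) + (fderiv ℝ φ p.1 (e i)) • ((0, 1) : E × ℝ) := by simp
    rw [h2, map_add, map_smul, smul_eq_mul]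
    ring
  -- rewrite both sides
  rw [flat_int φ hφ.continuous]
  have hρc : Continuous fun x => Real.sqrt (1 + slope φ x) := by
    apply Continuous.sqrt
    apply continuous_const.add
    unfold slope
    apply continuous_finsetSum
    intro i _
    exact ((hφ1.continuous_fderiv (by norm_num)).clm_apply continuous_const).pow 2
  have hv := vert_int _ hρc U hU hUc
  have hU0 : ∀ x, U (x, 0) = u (x, φ x) := fun x => by simp [hUdef, shear]
  simp only [hU0] at hv
  have hh := hardy_prod U hU hUc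
  -- integrability
  have dc : ∀ v : E × ℝ, Continuous fun p => fderiv ℝ U p v := fun v =>
    (hU.continuous_fderiv (by norm_num)).clm_apply continuous_const
  have ds : ∀ v : E × ℝ, HasCompactSupport fun p => fderiv ℝ U p v := fun v =>
    hUc.fderiv_apply ℝ v
  have sq : ∀ g : E × ℝ → ℝ, HasCompactSupport g → HasCompactSupport fun p => g p ^ 2 :=
    fun g hg => hg.comp_left (g := fun y : ℝ => y ^ 2) (by simp)
  have sp : HasCompactSupport fun p : E × ℝ => ∑ i, fderiv ℝ U p (e i, 0) ^ 2 := by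
    have : (fun p : E × ℝ => ∑ i, fderiv ℝ U p (e i, 0) ^ 2) = fun p =>
        fderiv ℝ U p (e 0, 0) ^ 2 + fderiv ℝ U p (e 1, 0) ^ 2 + fderiv ℝ U p (e 2, 0) ^ 2 := by
      funext p; rw [Fin.sum_univ_three]
    rw [this]
    exact ((sq _ (ds _)).add (sq _ (ds _))).add (sq _ (ds _))
  have cp : Continuous fun p : E × ℝ => ∑ i, fderiv ℝ U p (e i, 0) ^ 2 :=
    continuous_finsetSum _ fun i _ => (dc _).pow 2
  have cs : Continuous fun p : E × ℝ => slope φ p.1 := by
    unfold slope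
    apply continuous_finsetSum
    intro i _
    exact (((hφ1.continuous_fderiv (by norm_num)).clm_apply continuous_const).comp
      continuous_fst).pow 2
  have i1 : Integrable (fun p : E × ℝ => ∑ i, fderiv ℝ U p (e i, 0) ^ 2) prodm :=
    int_prodm _ cp sp
  have i2 : Integrable (fun p : E × ℝ => slope φ p.1 * U p ^ 2) prodm :=
    int_prodm _ (cs.mul (hU.continuous.pow 2)) (sq _ hUc).mul_left
  have i3 : Integrable (fun p : E × ℝ => Real.sqrt (1 + slope φ p.1) *
      (2 * U p * fderiv ℝ U p (0, 1))) prodm :=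
    int_prodm _ ((hρc.comp continuous_fst).mul ((continuous_const.mul hU.continuous).mul (dc _)))
      (hUc.mul_left.mul_right).mul_left
  have i4 : Integrable (fun p : E × ℝ => wt p.1 * U p ^ 2) prodm :=
    int_prodm _ ((contDiff_wt.continuous.comp continuous_fst).mul (hU.continuous.pow 2))
      (sq _ hUc).mul_left
  have hfull : ContDiff ℝ 0 u := hu.of_le (by norm_num)
  have i5 : Integrable (fun p : E × ℝ => ∑ i, fderiv ℝ u (shear φ p) (e i, 0) ^ 2 +
      fderiv ℝ u (shear φ p) (0, 1) ^ 2 + u (shear φ p) ^ 2) prodm := by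
    simp only [hUi, ← hUt]
    have e1 : (fun p : E × ℝ => ∑ i, (fderiv ℝ U p (e i, 0) -
        fderiv ℝ φ p.1 (e i) * fderiv ℝ U p (0, 1)) ^ 2 + fderiv ℝ U p (0, 1) ^ 2 + U p ^ 2) =
        fun p => (fderiv ℝ U p (e 0, 0) - fderiv ℝ φ p.1 (e 0) * fderiv ℝ U p (0, 1)) ^ 2 +
          (fderiv ℝ U p (e 1, 0) - fderiv ℝ φ p.1 (e 1) * fderiv ℝ U p (0, 1)) ^ 2 +
          (fderiv ℝ U p (e 2, 0) - fderiv ℝ φ p.1 (e 2) * fderiv ℝ U p (0, 1)) ^ 2 +
          fderiv ℝ U p (0, 1) ^ 2 + U p ^ 2 := by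
      funext p; rw [Fin.sum_univ_three]
    have dφ : ∀ v : E, Continuous fun p : E × ℝ => fderiv ℝ φ p.1 v := fun v =>
      ((hφ1.continuous_fderiv (by norm_num)).clm_apply continuous_const).comp continuous_fst
    rw [e1]
    apply int_prodm
    · exact (((((dc _).sub ((dφ _).mul (dc _))).pow 2).add
        (((dc _).sub ((dφ _).mul (dc _))).pow 2)).add
        (((dc _).sub ((dφ _).mul (dc _))).pow 2)).add ((dc _).pow 2) |>.add (hU.continuous.pow 2)
    · exact (((((sq _ ((ds _).sub (ds _).mul_left)).add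
        (sq _ ((ds _).sub (ds _).mul_left))).add
        (sq _ ((ds _).sub (ds _).mul_left))).add (sq _ (ds _)))).add (sq _ hUc)
  -- pointwise bound, integrated
  have hpt : ∀ p : E × ℝ, (1 / 2) * ∑ i, fderiv ℝ U p (e i, 0) ^ 2 -
      (1 / 8) * (wt p.1 * U p ^ 2) ≤
      (∑ i, fderiv ℝ u (shear φ p) (e i, 0) ^ 2 + fderiv ℝ u (shear φ p) (0, 1) ^ 2 +
        u (shear φ p) ^ 2) + Real.sqrt (1 + slope φ p.1) * (2 * U p * fderiv ℝ U p (0, 1)) := by
    intro p
    have hs0 := slope_nonneg φ p.1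
    have hw1 : wt p.1 ≤ 1 := by
      unfold wt
      exact inv_le_one_of_one_le₀ (by have := base_pos p.1; have h : 0 ≤ ∑ i, p.1 i ^ 2 := by positivity
                                      linarith)
    have hs1 : slope φ p.1 ≤ 1 / 28 := (hsl p.1).trans (by linarith)
    have hpw := pointwise (a0 := fderiv ℝ U p (e 0, 0)) (a1 := fderiv ℝ U p (e 1, 0))
      (a2 := fderiv ℝ U p (e 2, 0)) (b0 := fderiv ℝ φ p.1 (e 0)) (b1 := fderiv ℝ φ p.1 (e 1))
      (b2 := fderiv ℝ φ p.1 (e 2)) (τ := fderiv ℝ U p (0, 1)) (U := U p) (s := slope φ p.1)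
      (ρ := Real.sqrt (1 + slope φ p.1)) (by rw [slope, Fin.sum_univ_three]) hs1
      (Real.sq_sqrt (by linarith)) (Real.sqrt_nonneg _)
    rw [Fin.sum_univ_three, Fin.sum_univ_three, hUi, hUi, hUi, ← hUt]
    have h7 : (7 / 2) * slope φ p.1 * U p ^ 2 ≤ (1 / 8) * (wt p.1 * U p ^ 2) := by
      have := mul_le_mul_of_nonneg_right (hsl p.1) (sq_nonneg (U p))
      linarith
    have h8 : u (shear φ p) = U p := rfl
    rw [h8]
    linarith
  have hm := integral_mono ((i1.const_mul (1 / 2)).sub (i4.const_mul (1 / 8))) (i5.add i3) hpt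
  simp only [Pi.sub_apply, Pi.add_apply] at hm
  rw [integral_sub (i1.const_mul (1 / 2)) (i4.const_mul (1 / 8)), integral_add i5 i3,
    integral_const_mul, integral_const_mul, hv] at hm
  linarith

end Main

/-! ### Complex functions and the closed form -/

lemma norm_sq_Lp {α : Type*} [MeasurableSpace α] {μ : Measure α} (f : Lp ℂ 2 μ) :
    ‖f‖ ^ 2 = ∫ x, ‖f x‖ ^ 2 ∂μ := by
  have h1 : ((‖f‖ : ℂ)) ^ 2 = ((∫ x, ‖f x‖ ^ 2 ∂μ : ℝ) : ℂ) := by
    have h2 := inner_self_eq_norm_sq_to_K (𝕜 := ℂ) f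
    have h3 : ((‖f‖ : ℂ)) ^ 2 = inner ℂ f f := by rw [h2]; rfl
    rw [h3, L2.inner_def, ← integral_complex_ofReal]
    congr 1
    funext x
    rw [inner_self_eq_norm_sq_to_K]
    push_cast
    rfl
  exact_mod_cast h1

lemma sum_pd (u : E × ℝ → ℂ) (p : E × ℝ) :
    ∑ i, ‖pd i u p‖ ^ 2 = ∑ i, ‖fderiv ℝ u p (e i, 0)‖ ^ 2 + ‖fderiv ℝ u p (0, 1)‖ ^ 2 := by
  rw [Fin.sum_univ_four, Fin.sum_univ_three]
  rfl

lemma csq (z : ℂ) : ‖z‖ ^ 2 = z.re ^ 2 + z.im ^ 2 := by
  rw [← Complex.normSq_eq_norm_sq, Complex.normSq_apply]; ring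

lemma smooth_ineq {φ : E → ℝ} (hφ : ContDiff ℝ ∞ φ) (hsl : ∀ x, slope φ x ≤ (1 / 28) * wt x)
    {w : Triple φ} (hw : w ∈ Smooth φ) : ‖w.2.2‖ ^ 2 ≤ ∑ i, ‖w.2.1 i‖ ^ 2 + ‖w.1‖ ^ 2 := by
  obtain ⟨u, hu, hc, h1, h2, h3⟩ := hw
  have hφ1 : ContDiff ℝ 1 φ := hφ.of_le (by norm_num)
  have hu1 : ContDiff ℝ 1 u := hu.of_le (by norm_num)
  set ur : E × ℝ → ℝ := fun p => (u p).re with hur
  set ui : E × ℝ → ℝ := fun p => (u p).im with hui
  have hr : ContDiff ℝ ∞ ur := Complex.reCLM.contDiff.comp hu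
  have hi : ContDiff ℝ ∞ ui := Complex.imCLM.contDiff.comp hu
  have hrc : HasCompactSupport ur := hc.comp_left (g := Complex.re) (by simp)
  have hic : HasCompactSupport ui := hc.comp_left (g := Complex.im) (by simp)
  have hrd : ∀ p v, fderiv ℝ ur p v = (fderiv ℝ u p v).re := by
    intro p v
    have h4 : HasFDerivAt u (fderiv ℝ u p) p := (hu1.differentiable (by norm_num) p).hasFDerivAt
    have h5 : fderiv ℝ ur p = Complex.reCLM.comp (fderiv ℝ u p) :=
      (Complex.reCLM.hasFDerivAt.comp p h4).fderiv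
    rw [h5]; rfl
  have hid : ∀ p v, fderiv ℝ ui p v = (fderiv ℝ u p v).im := by
    intro p v
    have h4 : HasFDerivAt u (fderiv ℝ u p) p := (hu1.differentiable (by norm_num) p).hasFDerivAt
    have h5 : fderiv ℝ ui p = Complex.imCLM.comp (fderiv ℝ u p) :=
      (Complex.imCLM.hasFDerivAt.comp p h4).fderiv
    rw [h5]; rfl
  have r1 := real_ineq hφ hsl ur hr hrc
  have r2 := real_ineq hφ hsl ui hi hic
  have sq : ∀ g : E × ℝ → ℝ, HasCompactSupport g → HasCompactSupport fun p => g p ^ 2 :=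
    fun g hg => hg.comp_left (g := fun y : ℝ => y ^ 2) (by simp)
  have dc : ∀ v : E × ℝ, Continuous fun p => fderiv ℝ u p v := fun v =>
    (hu1.continuous_fderiv (by norm_num)).clm_apply continuous_const
  have ds : ∀ v : E × ℝ, HasCompactSupport fun p => fderiv ℝ u p v := fun v =>
    hc.fderiv_apply ℝ v
  have ipd : ∀ i, Integrable (fun p => ‖pd i u p‖ ^ 2) (vol φ) := fun i => by
    apply Integrable.restrict
    apply Continuous.integrable_of_hasCompactSupport
    · exact (dc (dir i)).norm.pow 2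
    · exact sq _ (ds (dir i)).norm
  -- the norms
  have n1 : ‖w.1‖ ^ 2 = ∫ p, ‖u p‖ ^ 2 ∂(vol φ) := by
    rw [norm_sq_Lp]
    apply integral_congr_ae
    filter_upwards [h1] with p hp
    rw [hp]
  have n2 : ∑ i, ‖w.2.1 i‖ ^ 2 = ∫ p, ∑ i, ‖pd i u p‖ ^ 2 ∂(vol φ) := by
    rw [integral_finsetSum _ fun i _ => ipd i]
    apply Finset.sum_congr rfl
    intro i _
    rw [norm_sq_Lp]
    apply integral_congr_ae
    filter_upwards [h2 i] with p hp
    rw [hp]
  have hρc : Continuous fun x => Real.sqrt (1 + slope φ x) := by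
    apply Continuous.sqrt
    apply continuous_const.add
    unfold slope
    apply continuous_finsetSum
    intro i _
    exact ((hφ1.continuous_fderiv (by norm_num)).clm_apply continuous_const).pow 2
  have n3 : ‖w.2.2‖ ^ 2 = ∫ x, Real.sqrt (1 + slope φ x) * ‖u (x, φ x)‖ ^ 2 := by
    rw [norm_sq_Lp]
    have h4 : ∫ x, ‖w.2.2 x‖ ^ 2 ∂(surf φ) = ∫ x, ‖u (x, φ x)‖ ^ 2 ∂(surf φ) := by
      apply integral_congr_ae
      filter_upwards [h3] with p hp
      rw [hp]
    rw [h4, surf, integral_withDensity_eq_integral_toReal_smul]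
    · congr 1
      funext x
      rw [ENNReal.toReal_ofReal (Real.sqrt_nonneg _), smul_eq_mul]
    · exact hρc.measurable.ennreal_ofReal
    · exact Filter.Eventually.of_forall fun x => ENNReal.ofReal_lt_top
  have part : ∀ (v : E × ℝ → ℝ), ContDiff ℝ ∞ v → HasCompactSupport v →
      Integrable (fun p => ∑ i, fderiv ℝ v p (e i, 0) ^ 2 + fderiv ℝ v p (0, 1) ^ 2 + v p ^ 2)
        (vol φ) := by
    intro v hv hvc
    have hv1 : ContDiff ℝ 1 v := hv.of_le (by norm_num)
    have dvc : ∀ z : E × ℝ, Continuous fun p => fderiv ℝ v p z := fun z =>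
      (hv1.continuous_fderiv (by norm_num)).clm_apply continuous_const
    have dvs : ∀ z : E × ℝ, HasCompactSupport fun p => fderiv ℝ v p z := fun z =>
      hvc.fderiv_apply ℝ z
    have e1 : (fun p : E × ℝ => ∑ i, fderiv ℝ v p (e i, 0) ^ 2 + fderiv ℝ v p (0, 1) ^ 2 +
        v p ^ 2) = fun p => fderiv ℝ v p (e 0, 0) ^ 2 + fderiv ℝ v p (e 1, 0) ^ 2 +
          fderiv ℝ v p (e 2, 0) ^ 2 + fderiv ℝ v p (0, 1) ^ 2 + v p ^ 2 := by
      funext p; rw [Fin.sum_univ_three]
    rw [e1]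
    apply Integrable.restrict
    apply Continuous.integrable_of_hasCompactSupport
    · exact ((((dvc _).pow 2).add ((dvc _).pow 2)).add ((dvc _).pow 2)).add ((dvc _).pow 2)
        |>.add (hv.continuous.pow 2)
    · exact ((((sq _ (dvs _)).add (sq _ (dvs _))).add (sq _ (dvs _))).add (sq _ (dvs _))).add
        (sq _ hvc)
  have m1 : ∑ i, ‖w.2.1 i‖ ^ 2 + ‖w.1‖ ^ 2 =
      (∫ p, (∑ i, fderiv ℝ ur p (e i, 0) ^ 2 + fderiv ℝ ur p (0, 1) ^ 2 + ur p ^ 2) ∂(vol φ)) +
      ∫ p, (∑ i, fderiv ℝ ui p (e i, 0) ^ 2 + fderiv ℝ ui p (0, 1) ^ 2 + ui p ^ 2) ∂(vol φ) := by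
    rw [← integral_add (part ur hr hrc) (part ui hi hic), n1, n2, ← integral_add]
    · congr 1
      funext p
      rw [sum_pd, Fin.sum_univ_three, Fin.sum_univ_three, Fin.sum_univ_three]
      simp only [hrd, hid]
      simp only [csq, hur, hui]
      ring
    · exact integrable_finsetSum _ fun i _ => ipd i
    · apply Integrable.restrict
      apply Continuous.integrable_of_hasCompactSupport
      · exact hu.continuous.norm.pow 2
      · exact sq _ hc.norm
  have graphc : Continuous fun x : E => ((x, φ x) : E × ℝ) := by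
    have := hφ.continuous
    fun_prop
  have bs : ∀ v : E × ℝ → ℝ, Continuous v → HasCompactSupport v →
      Integrable fun x => Real.sqrt (1 + slope φ x) * v (x, φ x) ^ 2 := by
    intro v hv hvc
    apply Continuous.integrable_of_hasCompactSupport
    · exact hρc.mul ((hv.comp graphc).pow 2)
    · apply HasCompactSupport.mul_left
      have : HasCompactSupport fun x : E => v (x, φ x) := by
        apply HasCompactSupport.of_support_subset_isCompact (hvc.image continuous_fst)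
        intro x hx
        exact ⟨(x, φ x), subset_tsupport _ hx, rfl⟩
      exact this.comp_left (g := fun y : ℝ => y ^ 2) (by simp)
  have m2 : ‖w.2.2‖ ^ 2 = (∫ x, Real.sqrt (1 + slope φ x) * ur (x, φ x) ^ 2) +
      ∫ x, Real.sqrt (1 + slope φ x) * ui (x, φ x) ^ 2 := by
    rw [n3, ← integral_add (bs ur hr.continuous hrc) (bs ui hi.continuous hic)]
    congr 1
    funext x
    simp only [csq, hur, hui]
    ring
  rw [m1, m2]
  linarith

/-- The inequality on the closure. -/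
lemma form_ineq {φ : E → ℝ} (hφ : ContDiff ℝ ∞ φ) (hsl : ∀ x, slope φ x ≤ (1 / 28) * wt x)
    {w : Triple φ} (hw : w ∈ closure (Smooth φ)) :
    ‖w.2.2‖ ^ 2 ≤ ∑ i, ‖w.2.1 i‖ ^ 2 + ‖w.1‖ ^ 2 := by
  have hcl : IsClosed {w : Triple φ | ‖w.2.2‖ ^ 2 ≤ ∑ i, ‖w.2.1 i‖ ^ 2 + ‖w.1‖ ^ 2} := by
    apply isClosed_le <;> fun_prop
  exact closure_minimal (fun w hw => smooth_ineq hφ hsl hw) hcl hw

lemma norm_sq_toLp {α : Type*} [MeasurableSpace α] {μ : Measure α} {f : α → ℂ} (hf : MemLp f 2 μ) :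
    ‖hf.toLp f‖ ^ 2 = ∫ x, ‖f x‖ ^ 2 ∂μ := by
  rw [norm_sq_Lp]
  apply integral_congr_ae
  filter_upwards [hf.coeFn_toLp] with x hx
  rw [hx]

/-- The form inequality on `H¹(Ω)`. -/
lemma h1_ineq {φ : E → ℝ} (hφ : ContDiff ℝ ∞ φ) (hsl : ∀ x, slope φ x ≤ (1 / 28) * wt x)
    {f : E × ℝ → ℂ} {G : Fin 4 → E × ℝ → ℂ} {g : E → ℂ} (h : InH1 φ f G g) :
    ∫ x, ‖g x‖ ^ 2 ∂(surf φ) ≤
      ∑ i, (∫ p, ‖G i p‖ ^ 2 ∂(vol φ)) + ∫ p, ‖f p‖ ^ 2 ∂(vol φ) := by
  obtain ⟨hf, hG, hg, u, hu, l1, l2, l3⟩ := h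
  have hφ1 : ContDiff ℝ 1 φ := hφ.of_le (by norm_num)
  -- the smooth functions define elements of `L²`
  have mu : ∀ n, MemLp (u n) 2 (vol φ) := fun n =>
    ((hu n).1.continuous.memLp_of_hasCompactSupport (hu n).2).restrict _
  have mpd : ∀ n i, MemLp (pd i (u n)) 2 (vol φ) := fun n i => by
    have hu1 : ContDiff ℝ 1 (u n) := (hu n).1.of_le (by norm_num)
    have hc : Continuous (pd i (u n)) :=
      (hu1.continuous_fderiv (by norm_num)).clm_apply continuous_const
    exact (hc.memLp_of_hasCompactSupport ((hu n).2.fderiv_apply ℝ _)).restrict _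
  have hρc : Continuous fun x => Real.sqrt (1 + slope φ x) := by
    apply Continuous.sqrt
    apply continuous_const.add
    unfold slope
    apply continuous_finsetSum
    intro i _
    exact ((hφ1.continuous_fderiv (by norm_num)).clm_apply continuous_const).pow 2
  have : IsLocallyFiniteMeasure (surf φ) := by
    unfold surf
    exact IsLocallyFiniteMeasure.withDensity_ofReal hρc
  have mt : ∀ n, MemLp (fun x => u n (x, φ x)) 2 (surf φ) := fun n => by
    have hc : Continuous fun x : E => u n (x, φ x) := by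
      have h1 := hφ.continuous
      have h2 := (hu n).1.continuous
      exact h2.comp (continuous_id.prodMk h1)
    apply hc.memLp_of_hasCompactSupport
    apply HasCompactSupport.of_support_subset_isCompact ((hu n).2.image continuous_fst)
    intro x hx
    exact ⟨(x, φ x), subset_tsupport _ hx, rfl⟩
  set w : Triple φ := (hf.toLp f, fun i => (hG i).toLp (G i), hg.toLp g) with hw
  have hmem : w ∈ closure (Smooth φ) := by
    apply mem_closure_of_tendsto (f := fun n : ℕ => (((mu n).toLp (u n),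
      fun i => (mpd n i).toLp (pd i (u n)), (mt n).toLp (fun x => u n (x, φ x))) : Triple φ))
      (b := Filter.atTop)
    · apply Filter.Tendsto.prodMk_nhds
      · exact (Lp.tendsto_Lp_iff_tendsto_eLpNorm'' _ mu _ hf).mpr l1
      · apply Filter.Tendsto.prodMk_nhds
        · rw [tendsto_pi_nhds]
          intro i
          exact (Lp.tendsto_Lp_iff_tendsto_eLpNorm'' _ (fun n => mpd n i) _ (hG i)).mpr (l2 i)
        · exact (Lp.tendsto_Lp_iff_tendsto_eLpNorm'' _ mt _ hg).mpr l3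
    · refine Filter.Eventually.of_forall fun n => ⟨u n, (hu n).1, (hu n).2, ?_, ?_, ?_⟩
      · exact (mu n).coeFn_toLp
      · exact fun i => (mpd n i).coeFn_toLp
      · exact (mt n).coeFn_toLp
  have h1 := form_ineq hφ hsl hmem
  simp only [hw, norm_sq_toLp] at h1
  exact h1

lemma self_int {α : Type*} [MeasurableSpace α] {μ : Measure α} (f : α → ℂ) :
    ∫ x, (starRingEnd ℂ) (f x) * f x ∂μ = ((∫ x, ‖f x‖ ^ 2 ∂μ : ℝ) : ℂ) := by
  rw [← integral_complex_ofReal]
  congr 1
  funext x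
  rw [mul_comm, Complex.mul_conj, Complex.normSq_eq_norm_sq]

lemma q_self {φ : E → ℝ} (G : Fin 4 → E × ℝ → ℂ) (g : E → ℂ) : q φ G G g g =
    ((∑ i, (∫ p, ‖G i p‖ ^ 2 ∂(vol φ)) - ∫ x, ‖g x‖ ^ 2 ∂(surf φ) : ℝ) : ℂ) := by
  rw [q]
  simp only [self_int]
  push_cast
  rfl

/-- existence of an admissible profile -/
lemma exists_profile : ∃ φ : E → ℝ, ContDiff ℝ ∞ φ ∧ HasCompactSupport φ ∧ φ ≠ 0 ∧
    ∀ x, slope φ x ≤ (1 / 28) * wt x := by
  let η : ContDiffBump (0 : E) := ⟨1, 2, one_pos, one_lt_two⟩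
  have hη : ContDiff ℝ ∞ (η : E → ℝ) := η.contDiff
  have hηc : HasCompactSupport (η : E → ℝ) := η.hasCompactSupport
  have hη1 : ContDiff ℝ 1 (η : E → ℝ) := hη.of_le (by norm_num)
  have hη0 : η 0 = 1 := by
    apply η.one_of_mem_closedBall
    simp [η]
  obtain ⟨C, hC⟩ : ∃ C, ∀ x, ‖slope (η : E → ℝ) x * (1 + ∑ i, x i ^ 2)‖ ≤ C := by
    apply HasCompactSupport.exists_bound_of_continuous
    · apply HasCompactSupport.mul_right
      have : slope (η : E → ℝ) = fun x => fderiv ℝ (η : E → ℝ) x (e 0) ^ 2 +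
          fderiv ℝ (η : E → ℝ) x (e 1) ^ 2 + fderiv ℝ (η : E → ℝ) x (e 2) ^ 2 := by
        funext x; rw [slope, Fin.sum_univ_three]
      rw [this]
      have hs : ∀ v, HasCompactSupport fun x => fderiv ℝ (η : E → ℝ) x v ^ 2 := fun v =>
        (hηc.fderiv_apply ℝ v).comp_left (g := fun y : ℝ => y ^ 2) (by simp)
      exact ((hs _).add (hs _)).add (hs _)
    · apply Continuous.mul
      · unfold slope
        apply continuous_finsetSum
        intro i _
        exact ((hη1.continuous_fderiv (by norm_num)).clm_apply continuous_const).pow 2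
      · fun_prop
  have hC0 : 0 ≤ C := (norm_nonneg _).trans (hC 0)
  set ε : ℝ := 1 / (28 * (C + 1)) with hε
  have hεpos : 0 < ε := by positivity
  refine ⟨fun x => ε * η x, contDiff_const.mul hη, hηc.mul_left, ?_, ?_⟩
  · intro h
    have := congrFun h 0
    simp only [Pi.zero_apply, hη0, mul_one] at this
    exact hεpos.ne' this
  · intro x
    have h1 : slope (fun x => ε * η x) x = ε ^ 2 * slope (η : E → ℝ) x := by
      unfold slope
      rw [Finset.mul_sum]
      apply Finset.sum_congr rfl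
      intro i _
      have h2 : fderiv ℝ (fun x => ε * η x) x = ε • fderiv ℝ (η : E → ℝ) x :=
        ((hη1.differentiable (by norm_num) x).hasFDerivAt.const_mul ε).fderiv
      rw [h2, smul_apply, smul_eq_mul, mul_pow]
    have h3 : slope (η : E → ℝ) x * (1 + ∑ i, x i ^ 2) ≤ C := (le_abs_self _).trans (hC x)
    have h4 : slope (η : E → ℝ) x ≤ C * wt x := by
      rw [wt, ← div_eq_mul_inv, le_div_iff₀ (base_pos x)]
      exact h3
    have h5 : ε ^ 2 * C ≤ 1 / 28 := by
      rw [hε, div_pow, one_pow, div_mul_eq_mul_div, one_mul,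
        div_le_div_iff₀ (by positivity) (by norm_num)]
      nlinarith
    rw [h1]
    calc ε ^ 2 * slope (η : E → ℝ) x ≤ ε ^ 2 * (C * wt x) := by gcongr
      _ = (ε ^ 2 * C) * wt x := by ring
      _ ≤ (1 / 28) * wt x := mul_le_mul_of_nonneg_right h5 (wt_pos x).le

/-- **Negative answer.** For `n = 4` and `α = -1` there is a locally deformed half-space
`Ω = {y > φ(x)}`, `φ ∈ C_c^∞(ℝ³)` not identically zero, whose Robin form satisfies
`q[f] ≥ -‖f‖²` on all of `H¹(Ω)`, and whose Robin Laplacian has no eigenvalue below `-1`. -/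
theorem result : ∃ φ : E → ℝ, ContDiff ℝ ∞ φ ∧ HasCompactSupport φ ∧ φ ≠ 0 ∧
    (∀ f G g, InH1 φ f G g → -(∫ p, ‖f p‖ ^ 2 ∂(vol φ)) ≤ (q φ G G g g).re) ∧
    ∀ l < -1, ¬ IsEigenvalue φ l := by
  obtain ⟨φ, h1, h2, h3, h4⟩ := exists_profile
  refine ⟨φ, h1, h2, h3, fun f G g hw => ?_, ?_⟩
  · have := h1_ineq h1 h4 hw
    rw [q_self, Complex.ofReal_re]
    linarith
  · rintro l hl ⟨f, G, g, hw, hw0, heig⟩
    have h5 := heig f G g hw
    rw [q_self, self_int] at h5
    have h6 : ∑ i, (∫ p, ‖G i p‖ ^ 2 ∂(vol φ)) - ∫ x, ‖g x‖ ^ 2 ∂(surf φ) =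
        l * ∫ p, ‖f p‖ ^ 2 ∂(vol φ) := by exact_mod_cast h5
    have h8 := h1_ineq h1 h4 hw
    have h9 : 0 < ∫ p, ‖f p‖ ^ 2 ∂(vol φ) := by
      rw [← norm_sq_toLp hw.1]
      have h10 : hw.1.toLp f ≠ 0 := by
        intro h0
        apply hw0
        exact (MemLp.toLp_eq_toLp_iff hw.1 MemLp.zero).mp (by rw [h0]; exact (MemLp.toLp_zero _).symm)
      have := norm_pos_iff.mpr h10
      positivity
    nlinarith

end Pool.Agent.Results.MP_ce9a4f_an.NoBoundState
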